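import Mathlib

/-!
# Remainders of realcompact spaces are selectively highly divergent
-/

namespace Pool.Agent.Results.MP_47dce7_gt.RemainderSHD

open Set Topology Filter

universe u

/-- Selectively highly divergent spaces. -/
def SHD (Y : Type*) [TopologicalSpace Y] : Prop :=
  ∀ U : ℕ → Set Y, (∀ n, IsOpen (U n) ∧ (U n).Nonempty) →
    ∃ x : ℕ → Y, (∀ n, x n ∈ U n) ∧
      ¬ ∃ (k : ℕ → ℕ) (a : Y), StrictMono k ∧ Tendsto (fun m => x (k m)) atTop (𝓝 a)

/-- A Tychonoff space is realcompact if it is homeomorphic to a closed subspace of a power of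
the real line. -/
def IsRealcompact (X : Type u) [TopologicalSpace X] : Prop :=
  T35Space X ∧ ∃ (κ : Type u) (j : X → (κ → ℝ)), IsClosedEmbedding j

/-- The Stone-Cech remainder of `X`. -/
def Remainder (X : Type u) [TopologicalSpace X] : Set (StoneCech X) :=
  (range (stoneCechUnit : X → StoneCech X))ᶜ

variable {X : Type u} [TopologicalSpace X]

/-- bounded real functions extend -/
theorem extend_bdd (f : X → ℝ) (hf : Continuous f) (h01 : ∀ x, f x ∈ Icc (0:ℝ) 1) :
    ∃ F : StoneCech X → ℝ, Continuous F ∧ (∀ x, F (stoneCechUnit x) = f x) ∧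
      ∀ z, F z ∈ Icc (0:ℝ) 1 := by
  have hg : Continuous (fun x => (⟨f x, h01 x⟩ : Icc (0:ℝ) 1)) := hf.subtype_mk _
  refine ⟨fun z => ((stoneCechExtend hg z : Icc (0:ℝ) 1) : ℝ), continuous_subtype_val.comp
    (continuous_stoneCechExtend hg), fun x => ?_, fun z => (stoneCechExtend hg z).2⟩
  show ((stoneCechExtend hg (stoneCechUnit x) : Icc (0:ℝ) 1) : ℝ) = f x
  rw [stoneCechExtend_stoneCechUnit]

/-- the trace of the neighbourhood filter is nontrivial -/
instance comap_neBot (z : StoneCech X) :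
    (comap (stoneCechUnit : X → StoneCech X) (𝓝 z)).NeBot := by
  rw [comap_neBot_iff]
  intro t ht
  obtain ⟨_, h1, ⟨x, rfl⟩⟩ := mem_closure_iff_nhds.1 (denseRange_stoneCechUnit z) t ht
  exact ⟨x, h1⟩

/-- Step 1: a function vanishing at `p` and positive on `X`. -/
theorem exists_pos_on (hX : IsRealcompact X) {p : StoneCech X} (hp : p ∈ Remainder X) :
    ∃ h : StoneCech X → ℝ, Continuous h ∧ h p = 0 ∧ (∀ z, 0 ≤ h z) ∧
      ∀ x : X, 0 < h (stoneCechUnit x) := by
  obtain ⟨hT, κ, j, hj⟩ := hX
  have hjc : ∀ α, Continuous (fun x => j x α) := fun α => (continuous_apply α).comp hj.continuous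
  have hf : ∀ α, Continuous (fun x => 1 / (1 + |j x α|)) := fun α =>
    continuous_const.div (continuous_const.add (hjc α).abs) fun x => by positivity
  have h01 : ∀ α x, 1 / (1 + |j x α|) ∈ Icc (0:ℝ) 1 := fun α x =>
    ⟨by positivity, by rw [div_le_one (by positivity)]; linarith [abs_nonneg (j x α)]⟩
  choose H hHc hHx hH01 using fun α => extend_bdd _ (hf α) (h01 α)
  by_cases hex : ∃ α, H α p = 0
  · obtain ⟨α, hα⟩ := hex
    refine ⟨H α, hHc α, hα, fun z => (hH01 α z).1, fun x => ?_⟩
    rw [hHx]; positivity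
  · exfalso
    push Not at hex
    have hpos : ∀ α, 0 < H α p := fun α => lt_of_le_of_ne (hH01 α p).1 (hex α).symm
    let F := Ultrafilter.of (comap (stoneCechUnit : X → StoneCech X) (𝓝 p))
    have hF : (F : Filter X) ≤ comap stoneCechUnit (𝓝 p) := Ultrafilter.of_le _
    have hFt : Tendsto (stoneCechUnit : X → StoneCech X) F (𝓝 p) :=
      tendsto_comap.mono_left hF
    have hlim : ∀ α, ∃ r : ℝ, Tendsto (fun x => j x α) F (𝓝 r) := by
      intro α
      have h1 : Tendsto (fun x => H α (stoneCechUnit x)) F (𝓝 (H α p)) :=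
        ((hHc α).tendsto p).comp hFt
      have h2 : ∀ᶠ x in (F : Filter X), H α p / 2 < H α (stoneCechUnit x) :=
        h1.eventually (lt_mem_nhds (by linarith [hpos α]))
      have h3 : ∀ᶠ x in (F : Filter X), j x α ∈ Icc (-(2 / H α p)) (2 / H α p) := by
        filter_upwards [h2] with x hx
        rw [hHx] at hx
        have hp1 : 0 < 1 + |j x α| := by positivity
        have h4 : H α p / 2 * (1 + |j x α|) < 1 := by
          rwa [lt_div_iff₀ hp1] at hx
        have h5 : |j x α| ≤ 2 / H α p := by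
          rw [le_div_iff₀ (hpos α)]
          nlinarith [hpos α, abs_nonneg (j x α)]
        exact abs_le.1 h5
      have h6 : (Icc (-(2 / H α p)) (2 / H α p)) ∈ Ultrafilter.map (fun x => j x α) F := h3
      obtain ⟨r, -, hr⟩ := (isCompact_Icc).ultrafilter_le_nhds (Ultrafilter.map (fun x => j x α) F)
        (le_principal_iff.2 h6)
      exact ⟨r, hr⟩
    choose r hr using hlim
    have hjr : Tendsto j F (𝓝 r) := tendsto_pi_nhds.2 hr
    have hrmem : r ∈ range j := by
      refine hj.isClosed_range.mem_of_tendsto hjr (Eventually.of_forall fun x => mem_range_self x)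
    obtain ⟨x0, hx0⟩ := hrmem
    have h7 : Tendsto id (F : Filter X) (𝓝 x0) := by
      rw [hj.isInducing.tendsto_nhds_iff, hx0]
      exact hjr
    have h8 : Tendsto (stoneCechUnit : X → StoneCech X) F (𝓝 (stoneCechUnit x0)) :=
      ((continuous_stoneCechUnit).tendsto x0).comp h7
    exact hp ⟨x0, tendsto_nhds_unique h8 hFt⟩

/-- Step 2: no nontrivial sequence converges to a point of the remainder. -/
theorem no_seq (hX : IsRealcompact X) {p : StoneCech X} (hp : p ∈ Remainder X)
    (y : ℕ → StoneCech X) (hy : ∀ m, y m ≠ p) (hlim : Tendsto y atTop (𝓝 p)) : False := by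
  obtain ⟨h, hhc, hhp, hh0, hhX⟩ := exists_pos_on hX hp
  have hf : ∀ m, ∃ f : C(StoneCech X, ℝ), f p = 0 ∧ f (y m) = 1 ∧ ∀ z, f z ∈ Icc (0:ℝ) 1 := by
    intro m
    obtain ⟨f, h1, h2, h3⟩ := exists_continuous_zero_one_of_isClosed
      (isClosed_singleton (x := p)) (isClosed_singleton (x := y m))
      (by simpa using (hy m).symm)
    exact ⟨f, h1 rfl, h2 rfl, h3⟩
  choose f hfp hfy hf01 using hf
  let φ : StoneCech X → ℝ := fun z => ∑' m, (1/2:ℝ)^m * f m z
  have hbd : ∀ m z, ‖(1/2:ℝ)^m * f m z‖ ≤ (1/2:ℝ)^m := by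
    intro m z
    rw [norm_mul, Real.norm_of_nonneg (by positivity), Real.norm_of_nonneg (hf01 m z).1]
    exact mul_le_of_le_one_right (by positivity) (hf01 m z).2
  have hsum : Summable (fun m => (1/2:ℝ)^m) := summable_geometric_two
  have hsz : ∀ z, Summable (fun m => (1/2:ℝ)^m * f m z) := fun z =>
    Summable.of_norm_bounded hsum (fun m => hbd m z)
  have hφc : Continuous φ := by
    refine continuous_tsum (fun m => continuous_const.mul (f m).continuous) hsum hbd
  have hφ0 : ∀ z, 0 ≤ φ z := fun z => tsum_nonneg fun m => mul_nonneg (by positivity) (hf01 m z).1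
  have hφp : φ p = 0 := by simp [φ, hfp]
  have hφy : ∀ m, 0 < φ (y m) := by
    intro m
    have h1 : (1/2:ℝ)^m * f m (y m) ≤ φ (y m) :=
      (hsz (y m)).le_tsum m fun k _ => mul_nonneg (by positivity) (hf01 k _).1
    rw [hfy] at h1
    have h2 : (0:ℝ) < (1/2)^m * 1 := by positivity
    linarith
  let ρ : StoneCech X → ℝ := fun z => φ z + h z
  have hρc : Continuous ρ := hφc.add hhc
  have hρp : ρ p = 0 := by simp [ρ, hφp, hhp]
  have hρX : ∀ x : X, 0 < ρ (stoneCechUnit x) := fun x => by
    have := hφ0 (stoneCechUnit x); have := hhX x; simp only [ρ]; linarith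
  have hρy : ∀ m, 0 < ρ (y m) := fun m => by
    have := hφy m; have := hh0 (y m); simp only [ρ]; linarith
  -- the values tend to infinity
  have hinv : Tendsto (fun m => (ρ (y m))⁻¹) atTop atTop := by
    refine tendsto_inv_nhdsGT_zero.comp ?_
    rw [tendsto_nhdsWithin_iff]
    refine ⟨?_, Eventually.of_forall fun m => hρy m⟩
    have := (hρc.tendsto p).comp hlim
    rwa [hρp] at this
  obtain ⟨k, hk, hks⟩ := strictMono_subseq_of_tendsto_atTop hinv
  set s : ℕ → ℝ := (fun m => (ρ (y m))⁻¹) ∘ k with hs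
  have hstop : Tendsto s atTop atTop := hinv.comp hk.tendsto_atTop
  have hsprop : IsProperMap s := by
    rw [isProperMap_iff_tendsto_cocompact]
    refine ⟨continuous_of_discreteTopology, ?_⟩
    rw [Filter.cocompact_eq_cofinite, Nat.cofinite_eq_atTop]
    exact hstop.mono_right atTop_le_cocompact
  have hE : IsClosed (s '' {m | Even m}) := hsprop.isClosedMap _ (isClosed_discrete _)
  have hO : IsClosed (s '' {m | ¬ Even m}) := hsprop.isClosedMap _ (isClosed_discrete _)
  have hEO : Disjoint (s '' {m | Even m}) (s '' {m | ¬ Even m}) := by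
    rw [Set.disjoint_left]
    rintro _ ⟨m, hm, rfl⟩ ⟨m', hm', he⟩
    have := hks.injective he
    subst this
    exact hm' hm
  obtain ⟨θ, hθE, hθO, hθ01⟩ := exists_continuous_zero_one_of_isClosed hE hO hEO
  -- the oscillating function
  have hF : Continuous (fun x : X => θ ((ρ (stoneCechUnit x))⁻¹)) := by
    refine θ.continuous.comp (Continuous.inv₀ (hρc.comp continuous_stoneCechUnit) fun x => ?_)
    exact (hρX x).ne'
  obtain ⟨G, hG, hGx, -⟩ := extend_bdd _ hF (fun x => hθ01 _)
  have hGy : ∀ z, 0 < ρ z → G z = θ ((ρ z)⁻¹) := by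
    intro z hz
    have h1 : Tendsto (fun x : X => G (stoneCechUnit x)) (comap stoneCechUnit (𝓝 z)) (𝓝 (G z)) :=
      (hG.tendsto z).comp tendsto_comap
    have h2 : Tendsto (fun x : X => θ ((ρ (stoneCechUnit x))⁻¹)) (comap stoneCechUnit (𝓝 z))
        (𝓝 (θ ((ρ z)⁻¹))) :=
      ((θ.continuous.tendsto _).comp ((hρc.tendsto z).inv₀ hz.ne')).comp tendsto_comap
    simp only [hGx] at h1
    exact tendsto_nhds_unique h1 h2
  have hlimG : Tendsto (fun m => G (y (k m))) atTop (𝓝 (G p)) :=
    ((hG.tendsto p).comp hlim).comp hk.tendsto_atTop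
  have hGm : ∀ m, G (y (k m)) = θ (s m) := fun m => hGy _ (hρy _)
  have h0 : Tendsto (fun m : ℕ => G (y (k (2 * m)))) atTop (𝓝 (G p)) :=
    hlimG.comp (tendsto_atTop_mono (fun m => by simp only [id]; omega) tendsto_id : Tendsto (fun m : ℕ => 2 * m) atTop atTop)
  have h1 : Tendsto (fun m : ℕ => G (y (k (2 * m + 1)))) atTop (𝓝 (G p)) :=
    hlimG.comp (tendsto_atTop_mono (fun m => by simp only [id]; omega) tendsto_id : Tendsto (fun m : ℕ => 2 * m + 1) atTop atTop)
  have e0 : ∀ m : ℕ, G (y (k (2 * m))) = 0 := fun m => by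
    rw [hGm]; exact hθE ⟨2 * m, ⟨m, by ring⟩, rfl⟩
  have e1 : ∀ m : ℕ, G (y (k (2 * m + 1))) = 1 := fun m => by
    rw [hGm]; exact hθO ⟨2 * m + 1, by simp, rfl⟩
  simp only [e0] at h0
  simp only [e1] at h1
  have g0 := tendsto_nhds_unique h0 tendsto_const_nhds
  have g1 := tendsto_nhds_unique h1 tendsto_const_nhds
  rw [g0] at g1
  exact zero_ne_one g1

/-- Step 3: a point of the remainder is not isolated in it. -/
theorem not_isolated (hX : IsRealcompact X) {p : StoneCech X} (hp : p ∈ Remainder X)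
    (W : Set (StoneCech X)) (hW : IsOpen W) (hpW : p ∈ W) :
    ∃ q ∈ Remainder X, q ∈ W ∧ q ≠ p := by
  by_contra hcon
  push Not at hcon
  obtain ⟨h, hhc, hhp, hh0, hhX⟩ := exists_pos_on hX hp
  obtain ⟨f, hf1, hf2, hf01⟩ := exists_continuous_zero_one_of_isClosed
      (isClosed_singleton (x := p)) hW.isClosed_compl
      (by rw [disjoint_singleton_left]; exact fun hc => hc hpW)
  let ρ : StoneCech X → ℝ := fun z => f z + h z
  have hρc : Continuous ρ := f.continuous.add hhc
  have hρ0 : ∀ z, ρ z ≤ 0 → z = p := by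
    intro z hz
    have h1 := (hf01 z).1
    have h2 := hh0 z
    simp only [ρ] at hz
    have hfz : f z = 0 := by linarith
    have hhz : h z = 0 := by linarith
    by_cases hzR : z ∈ Remainder X
    · refine hcon z hzR ?_
      by_contra hzW
      have := hf2 hzW
      rw [hfz] at this
      exact zero_ne_one this
    · have : z ∈ range (stoneCechUnit : X → StoneCech X) := by
        by_contra h3; exact hzR h3
      obtain ⟨x, rfl⟩ := this
      exact absurd hhz (hhX x).ne'
  have hρp : ρ p = 0 := by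
    have : f p = 0 := hf1 rfl
    simp [ρ, this, hhp]
  -- choose points of `X` converging to `p`
  have hx : ∀ n : ℕ, ∃ x : X, ρ (stoneCechUnit x) < 1 / ((n:ℝ) + 1) := by
    intro n
    have hn : (0:ℝ) < 1 / ((n:ℝ) + 1) := by positivity
    have h1 : {z | ρ z < 1 / ((n:ℝ) + 1)} ∈ 𝓝 p :=
      (isOpen_lt hρc continuous_const).mem_nhds (by simp only [mem_setOf_eq, hρp]; exact hn)
    obtain ⟨_, h2, ⟨x, rfl⟩⟩ := mem_closure_iff_nhds.1 (denseRange_stoneCechUnit p) _ h1
    exact ⟨x, h2⟩
  choose x hx using hx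
  refine no_seq hX hp (fun n => stoneCechUnit (x n)) (fun n hn => hp ⟨x n, hn⟩) ?_
  -- convergence by compactness
  rw [tendsto_iff_forall_eventually_mem]
  intro O hO
  obtain ⟨O', hO'O, hO', hpO'⟩ := mem_nhds_iff.1 hO
  have hK : IsCompact O'ᶜ := hO'.isClosed_compl.isCompact
  by_cases hKe : (O'ᶜ).Nonempty
  · obtain ⟨z, hz, hzmin⟩ := hK.exists_isMinOn hKe hρc.continuousOn
    have hρz : 0 < ρ z := by
      by_contra hcon'
      have := hρ0 z (not_lt.1 hcon')
      rw [this] at hz
      exact hz hpO'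
    obtain ⟨N, hN⟩ := exists_nat_one_div_lt hρz
    filter_upwards [eventually_ge_atTop N] with n hn
    apply hO'O
    by_contra hnot
    have h1 : ρ z ≤ ρ (stoneCechUnit (x n)) := hzmin hnot
    have h2 : 1 / ((n:ℝ) + 1) ≤ 1 / ((N:ℝ) + 1) := by
      apply one_div_le_one_div_of_le (by positivity)
      have : (N:ℝ) ≤ n := by exact_mod_cast hn
      linarith
    linarith [hx n]
  · rw [not_nonempty_iff_eq_empty, compl_empty_iff] at hKe
    refine Eventually.of_forall fun n => hO'O ?_
    rw [hKe]; trivial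

/-- The Stone-Cech remainder of a noncompact realcompact space is SHD. -/
theorem result (X : Type u) [TopologicalSpace X] (hX : IsRealcompact X) (_hnc : ¬ CompactSpace X) :
    SHD (Remainder X) := by
  classical
  intro U hU
  -- every nonempty open subset of the remainder is infinite
  have hinf : ∀ n, (U n).Infinite := by
    intro n hfin
    obtain ⟨⟨p, hp⟩, hpU⟩ := (hU n).2
    obtain ⟨W, hW, hWU⟩ := isOpen_induced_iff.1 (hU n).1
    let F : Set (StoneCech X) := (Subtype.val '' (U n)) \ {p}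
    have hF : F.Finite := (hfin.image _).sdiff
    obtain ⟨q, hq, hqW, hqp⟩ := not_isolated hX hp (W \ F) (hW.sdiff hF.isClosed)
      ⟨by
        have : (⟨p, hp⟩ : Remainder X) ∈ Subtype.val ⁻¹' W := by rw [hWU]; exact hpU
        exact this, fun h => h.2 rfl⟩
    refine hqW.2 ⟨⟨⟨q, hq⟩, ?_, rfl⟩, hqp⟩
    rw [← hWU]; exact hqW.1
  have hch : ∀ (n : ℕ) (s : Finset (Remainder X)), ∃ x ∈ U n, x ∉ s := fun n s =>
    (hinf n).exists_notMem_finset s
  choose c hcU hcs using hch
  let F : ℕ → Finset (Remainder X) := fun n => n.rec ∅ (fun n s => insert (c n s) s)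
  have hFs : ∀ n, F (n+1) = insert (c n (F n)) (F n) := fun _ => rfl
  have hFm : ∀ m n, m < n → c m (F m) ∈ F n := by
    intro m n hmn
    induction n with
    | zero => omega
    | succ n ih =>
      rw [hFs]
      rcases Nat.lt_succ_iff_lt_or_eq.1 hmn with h | rfl
      · exact Finset.mem_insert_of_mem (ih h)
      · exact Finset.mem_insert_self _ _
  have hinj : Function.Injective (fun n => c n (F n)) := by
    intro m n hmn
    by_contra hne
    rcases lt_or_gt_of_ne hne with h | h
    · exact hcs n (F n) (by rw [← show c m (F m) = c n (F n) from hmn]; exact hFm m n h)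
    · exact hcs m (F m) (by rw [show c m (F m) = c n (F n) from hmn]; exact hFm n m h)
  refine ⟨fun n => c n (F n), fun n => hcU _ _, ?_⟩
  rintro ⟨k, ⟨p, hp⟩, hk, hlim⟩
  have hlim' : Tendsto (fun m => ((c (k m) (F (k m)) : Remainder X) : StoneCech X)) atTop (𝓝 p) :=
    (continuous_subtype_val.tendsto _).comp hlim
  -- at most one term equals `p`
  have hev : ∃ M, ∀ m ≥ M, ((c (k m) (F (k m)) : Remainder X) : StoneCech X) ≠ p := by
    by_cases hex : ∃ m, ((c (k m) (F (k m)) : Remainder X) : StoneCech X) = p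
    · obtain ⟨m, hm⟩ := hex
      refine ⟨m + 1, fun m' hm' he => ?_⟩
      have : k m' = k m := hinj (Subtype.ext (he.trans hm.symm))
      have := hk.injective this
      omega
    · push Not at hex
      exact ⟨0, fun m _ => hex m⟩
  obtain ⟨M, hM⟩ := hev
  exact no_seq hX hp (fun m => ((c (k (m + M)) (F (k (m + M))) : Remainder X) : StoneCech X))
    (fun m => hM _ (by omega)) (hlim'.comp (tendsto_add_atTop_nat M))

end Pool.Agent.Results.MP_47dce7_gt.RemainderSHD
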